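import Pool.Agent.U664.SV.Prime

/-!
# `n ^ π` and `n ^ e` for almost all integers `n ≤ N`, at every scale `N`

The question is whether `n ^ π` or `n ^ e` can be rational for an integer `n ≥ 2`. Call a number `x`
*good at the scale* `N` (for the degree `d` and the exponent `C`) if `|f(x)| > exp (-N ^ C)` for all
nonzero integer polynomials `f` of degree at most `d` with coefficients of absolute value at most `N`.
For `d = 1` this says `|q x - p| > exp (-N ^ C)` for all integers `p, q` with `|p|, |q| ≤ N`, not both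
zero.

Let `t = π` or `t = e`, and let `d` be given. There are `C` and `N₀` such that at EVERY scale `N ≥ N₀`

* of any three positive integers `n ≤ N` for which `n ^ t` is not good at the scale `N` the logarithms
  are linearly dependent over `ℚ` (the set of these `n` has multiplicative rank at most two);
* `n ^ t` is good at the scale `N` for all but at most `(log₂ N + 1) ^ 2` of the positive integers
  `n ≤ N`, and `p ^ t` for all but at most two of the primes `p ≤ N`.

The same is true for every complex number `t` which is not extremely close to rational numbers: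
`|t - p / q| ≥ exp (-C q ^ κ)` for some `C`, `κ` and all `p / q`; for example for every algebraic number
`t` outside `ℚ`, and for many Liouville numbers.

In the limit `N → ∞` one obtains the known corollary of the six exponentials theorem that `p ^ t` is
algebraic for at most two primes. New is the uniform lower bound: the integers `n` go up to `N` at the
scale `N`, `C` and `N₀` do not depend on them, the bad integers may be different at each scale.

Proof: the quantitative six exponentials theorem of the starting library (`Pool.Agent.R347.SX`) is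
proved again with exponentially small linear combinations in its conclusion
(`Pool.Agent.U664.SV.six_quant`), so that Liouville's inequality `|∑ b_i log n_i| ≥ exp (-4 B log N)`
is sufficient and no theorem on linear forms in logarithms is needed.
-/

set_option autoImplicit false

namespace Pool.Agent.Results.MP_ee2255_nt.AllButFewAtEveryScale

open Polynomial

/-- `x` is good at the scale `N`, for the degree `d` and the exponent `C` -/
def GoodAt (d C N : ℕ) (x : ℂ) : Prop :=
  ∀ f : ℤ[X], f ≠ 0 → f.natDegree ≤ d → (∀ n, |f.coeff n| ≤ N) →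
    Real.exp (-((N : ℝ) ^ C)) < ‖aeval x f‖

/-- the positive integers `n ≤ N` for which the number `v n` is not good at the scale `N` -/
def Bad (v : ℕ → ℂ) (d C N : ℕ) : Set ℕ := {n | n ≠ 0 ∧ n ≤ N ∧ ¬ GoodAt d C N (v n)}

/-- for all large `N` the bad integers have multiplicative rank at most two, there are at most
`(log₂ N + 1) ^ 2` of them, and at most two bad primes -/
def FewBad (v : ℕ → ℂ) (d : ℕ) : Prop :=
  ∃ C N₀ : ℕ, ∀ N ≥ N₀,
    (∀ f : Fin 3 → ℕ, (∀ i, f i ∈ Bad v d C N) →
      ∃ c : Fin 3 → ℤ, c ≠ 0 ∧ ∑ i, (c i : ℝ) * Real.log (f i) = 0) ∧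
    (Bad v d C N).ncard ≤ (Nat.log 2 N + 1) ^ 2 ∧
    {p | p.Prime ∧ p ∈ Bad v d C N}.encard ≤ 2

/-- `t` is not extremely close to rational numbers -/
def WeaklyMeasured (t : ℂ) : Prop :=
  ∃ C κ : ℕ, ∀ (p : ℤ) (q : ℕ), 1 ≤ q → Real.exp (-((C : ℝ) * (q : ℝ) ^ κ)) ≤ ‖t - p / q‖

theorem few (t : ℂ) (ht : WeaklyMeasured t) (d : ℕ) :
    FewBad (fun n => Complex.exp (t * (Real.log n : ℂ))) d := by
  obtain ⟨C₁, κ, h⟩ := ht
  obtain ⟨C, N₀, h1⟩ := Pool.Agent.U664.SV.bad_integers t d κ C₁ h
  refine ⟨C, N₀, fun N hN => ⟨(h1 N hN C le_rfl).1, (h1 N hN C le_rfl).2, ?_⟩⟩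
  exact Pool.Agent.U664.SV.primes_le_two (fun p hp => hp.1)
    fun f hf => (h1 N hN C le_rfl).1 f fun i => (hf i).2

theorem few_real (t : ℝ) (ht : WeaklyMeasured t) (d : ℕ) :
    FewBad (fun n => (((n : ℝ) ^ t : ℝ) : ℂ)) d := by
  obtain ⟨C, N₀, h1⟩ := few t ht d
  refine ⟨C, N₀, fun N hN => ?_⟩
  have e : Bad (fun n => (((n : ℝ) ^ t : ℝ) : ℂ)) d C N =
      Bad (fun n => Complex.exp ((t : ℂ) * (Real.log n : ℂ))) d C N := by
    ext n
    unfold Bad
    refine and_congr_right fun hn => ?_
    have h2 : (((n : ℝ) ^ t : ℝ) : ℂ) = Complex.exp ((t : ℂ) * (Real.log n : ℂ)) := by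
      rw [Real.rpow_def_of_pos (by exact_mod_cast Nat.pos_of_ne_zero hn), mul_comm]
      push_cast
      rfl
    beta_reduce
    rw [h2]
  rw [e]
  exact h1 N hN

theorem result :
    (∀ d : ℕ, FewBad (fun n => (((n : ℝ) ^ Real.pi : ℝ) : ℂ)) d) ∧
    (∀ d : ℕ, FewBad (fun n => (((n : ℝ) ^ Real.exp 1 : ℝ) : ℂ)) d) ∧
    (∀ t : ℝ, WeaklyMeasured t → ∀ d : ℕ, FewBad (fun n => (((n : ℝ) ^ t : ℝ) : ℂ)) d) ∧
    (∀ t : ℂ, WeaklyMeasured t → ∀ d : ℕ,
      FewBad (fun n => Complex.exp (t * (Real.log n : ℂ))) d) := by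
  refine ⟨fun d => few_real _ ?_ d, fun d => few_real _ ?_ d, few_real, few⟩
  · exact Pool.Agent.U664.SV.weak_of_measT Pool.Agent.TH456.TM.measT_pi
  · exact Pool.Agent.U664.SV.weak_of_measT Pool.Agent.TH456.TM.measT_e

end Pool.Agent.Results.MP_ee2255_nt.AllButFewAtEveryScale
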