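import Pool.Agent.U301.PiE3

set_option autoImplicit false

namespace Pool.Agent.Results.MP_ee2255_nt.ExceptionalBases

open Pool.Agent.H301R2.SSE Pool.Agent.H340R2 Pool.Agent.H462R2.PiE Pool.Agent.U301.PE

/-- `n` is an exceptional base for `b` if `n ^ (β b) = exp (β b log n)` is algebraic for at least one
nonzero algebraic (real or complex) number `β`; for `β = 1` this says that `n ^ b` is algebraic. -/
def Exceptional (b : ℝ) (n : ℕ) : Prop :=
  ∃ β : ℂ, IsAlgebraic ℚ β ∧ β ≠ 0 ∧ IsAlgebraic ℚ (Complex.exp (β * b * Real.log n))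

/-- the numbers `β₀ + β₁ λ₁ + ... + β_r λ_r` with algebraic `β_i` and logarithms `λ_i` of algebraic
numbers -/
noncomputable def LogForms : Submodule (algebraicClosure ℚ ℂ) ℂ :=
  Submodule.span (algebraicClosure ℚ ℂ) ({1} ∪ {z : ℂ | IsAlgebraic ℚ (Complex.exp z)})

theorem exc_log {n : ℕ} (hn : 2 ≤ n) : IsAlgebraic ℚ (Complex.exp ((Real.log n : ℝ) : ℂ)) := by
  have hpos : (0 : ℝ) < n := by positivity
  rw [← Complex.ofReal_exp, Real.exp_log hpos]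
  exact_mod_cast isAlgebraic_natCast n

theorem lin_two {m n : ℕ} (hm : 2 ≤ m) (hn : 2 ≤ n) (hi : Indep ![m, n]) :
    LinearIndependent ℚ ![((Real.log m : ℝ) : ℂ), ((Real.log n : ℝ) : ℂ)] := by
  have := linInd ![m, n] (by intro i; fin_cases i <;> assumption) hi
  convert this using 1
  ext i
  fin_cases i <;> rfl

theorem lin_three {l m n : ℕ} (hl : 2 ≤ l) (hm : 2 ≤ m) (hn : 2 ≤ n) (hi : Indep ![l, m, n]) :
    LinearIndependent ℚ ![((Real.log l : ℝ) : ℂ), ((Real.log m : ℝ) : ℂ),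
      ((Real.log n : ℝ) : ℂ)] := by
  have := linInd ![l, m, n] (by intro i; fin_cases i <;> assumption) hi
  convert this using 1
  ext i
  fin_cases i <;> rfl

theorem exc_of {b : ℝ} {n : ℕ} (hn : 2 ≤ n) (h : IsAlgebraic ℚ ((n : ℝ) ^ b)) :
    Exceptional b n := by
  refine ⟨1, isAlgebraic_one, one_ne_zero, ?_⟩
  rw [one_mul, exp_mul_log n hn b]
  exact alg_ofReal h

theorem pi_dep {m n : ℕ} (hm : 2 ≤ m) (hn : 2 ≤ n) (h1 : Exceptional Real.pi m)
    (h2 : Exceptional Real.pi n) : ¬ Indep ![m, n] := by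
  intro hi
  obtain ⟨β, hβ, hβ0, hβ1⟩ := h1
  obtain ⟨γ, hγ, hγ0, hγ1⟩ := h2
  exact pi_pair _ _ (exc_log hm) (exc_log hn) (lin_two hm hn hi) β γ hβ hγ hβ0 hγ0 hβ1 hγ1

theorem e_dep {l m n : ℕ} (hl : 2 ≤ l) (hm : 2 ≤ m) (hn : 2 ≤ n) (h0 : Exceptional (Real.exp 1) l)
    (h1 : Exceptional (Real.exp 1) m)
    (h2 : Exceptional (Real.exp 1) n) : ¬ Indep ![l, m, n] := by
  intro hi
  obtain ⟨α, hα, hα0, hα1⟩ := h0
  obtain ⟨β, hβ, hβ0, hβ1⟩ := h1
  obtain ⟨γ, hγ, hγ0, hγ1⟩ := h2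
  exact e_triple _ _ _ (exc_log hl) (exc_log hm) (exc_log hn) (lin_three hl hm hn hi) α β γ hα hβ hγ
    hα0 hβ0 hγ0 hα1 hβ1 hγ1

theorem pi_not_mem {m n : ℕ} (hm : 2 ≤ m) (hn : 2 ≤ n) (hi : Indep ![m, n]) :
    ((Real.pi : ℝ) : ℂ) ∉ Submodule.span QB
      {((Real.log m : ℝ) : ℂ), ((Real.log n : ℝ) : ℂ)} := by
  intro h
  rw [Submodule.mem_span_pair] at h
  obtain ⟨a, b, hab⟩ := h
  have hab' : (a : ℂ) * ((Real.log m : ℝ) : ℂ) + (b : ℂ) * ((Real.log n : ℝ) : ℂ) =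
      ((Real.pi : ℝ) : ℂ) := hab
  have h3 := baker3 ((Real.pi : ℂ) * Complex.I) ((Real.log m : ℝ) : ℂ) ((Real.log n : ℝ) : ℂ)
    (by rw [Complex.exp_pi_mul_I]; exact isAlgebraic_one.neg) (exc_log hm) (exc_log hn)
    (lin3 _ _ (lin_two hm hn hi)) Complex.I a b LW.isAlgebraic_I (mem_QB.mp a.2) (mem_QB.mp b.2)
    (by linear_combination hab' + (Real.pi : ℂ) * Complex.I_mul_I)
  exact Complex.I_ne_zero h3.1

theorem one_not_mem {m n : ℕ} (hm : 2 ≤ m) (hn : 2 ≤ n) (hi : Indep ![m, n]) :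
    (1 : ℂ) ∉ Submodule.span QB {((Real.log m : ℝ) : ℂ), ((Real.log n : ℝ) : ℂ)} := by
  intro h
  rw [Submodule.mem_span_pair] at h
  obtain ⟨a, b, hab⟩ := h
  have hab' : (a : ℂ) * ((Real.log m : ℝ) : ℂ) + (b : ℂ) * ((Real.log n : ℝ) : ℂ) = 1 := hab
  have h3 := baker2 ((Real.log m : ℝ) : ℂ) ((Real.log n : ℝ) : ℂ) (exc_log hm) (exc_log hn)
    (lin_two hm hn hi) (-1) a b isAlgebraic_one.neg (mem_QB.mp a.2) (mem_QB.mp b.2)
    (by linear_combination hab')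
  exact absurd h3.1 (by norm_num)

/-- the alternative for `e` -/
theorem e_alt : (∃ c : ℕ, 2 ≤ c ∧ ∀ n : ℕ, 2 ≤ n → Exceptional (Real.exp 1) n →
        ∃ k : ℕ, 1 ≤ k ∧ n = c ^ k) ∨
      ∃ l m : ℕ, 2 ≤ l ∧ 2 ≤ m ∧ Exceptional (Real.exp 1) l ∧ Exceptional (Real.exp 1) m ∧
        (∀ i j : ℤ, (l : ℚ) ^ i * (m : ℚ) ^ j = 1 → i = 0 ∧ j = 0) ∧
        (∀ y ∈ LogForms, y ∉ Submodule.span (algebraicClosure ℚ ℂ)
            {((Real.log l : ℝ) : ℂ), ((Real.log m : ℝ) : ℂ)} →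
          ∀ z ∈ LogForms, Transcendental ℚ ((Real.exp 1 : ℝ) * y + z)) ∧
        (∀ z ∈ LogForms, Transcendental ℚ ((Real.exp 1 : ℝ) + z)) ∧
        (∀ z ∈ LogForms, Transcendental ℚ ((Real.exp 1 : ℝ) * Real.pi + z)) ∧
        (∀ β : ℂ, IsAlgebraic ℚ β → β ≠ 0 →
          Transcendental ℚ (Complex.exp (β * (Real.exp 1 : ℝ)))) := by
  by_cases hall : ∀ m ∈ {n : ℕ | 2 ≤ n ∧ Exceptional (Real.exp 1) n},
      ∀ n ∈ {n : ℕ | 2 ≤ n ∧ Exceptional (Real.exp 1) n}, ¬ Indep ![m, n]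
  · left
    obtain ⟨c, hc, h⟩ := powers {n : ℕ | 2 ≤ n ∧ Exceptional (Real.exp 1) n}
      (fun n hn => hn.1) hall
    exact ⟨c, hc, fun n hn hE => h n ⟨hn, hE⟩⟩
  · right
    push Not at hall
    obtain ⟨l, ⟨hl, hEl⟩, m, ⟨hm, hEm⟩, hi⟩ := hall
    have main : ∀ y ∈ LogForms, y ∉ Submodule.span (algebraicClosure ℚ ℂ)
            {((Real.log l : ℝ) : ℂ), ((Real.log m : ℝ) : ℂ)} →
          ∀ z ∈ LogForms, Transcendental ℚ ((Real.exp 1 : ℝ) * y + z) := by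
      intro y hy hyn z hz
      obtain ⟨β, hβ, hβ0, hβ1⟩ := hEl
      obtain ⟨γ, hγ, hγ0, hγ1⟩ := hEm
      exact e_rigid _ _ (exc_log hl) (exc_log hm) (lin_two hl hm hi) β γ hβ hγ hβ0 hγ0 hβ1 hγ1
        y z hy hz hyn
    have hone : ∀ z ∈ LogForms, Transcendental ℚ (((Real.exp 1 : ℝ) : ℂ) + z) := by
      intro z hz
      have := main 1 Lt_one (one_not_mem hl hm hi) z hz
      rwa [mul_one] at this
    refine ⟨l, m, hl, hm, hEl, hEm, ?_, main, hone, ?_, ?_⟩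
    · intro i j hij
      have := hi ![i, j] (by
        rw [Fin.prod_univ_two]
        simpa using hij)
      exact ⟨congrFun this 0, congrFun this 1⟩
    · exact main _ pi_mem (pi_not_mem hl hm hi)
    · intro β hβ hβ0 halg
      have h1 : β * ((Real.exp 1 : ℝ) : ℂ) ∈ Lt := Lt_log halg
      have h2 := Lt_mul hβ.inv h1
      have h3 : β⁻¹ * (β * ((Real.exp 1 : ℝ) : ℂ)) = ((Real.exp 1 : ℝ) : ℂ) := by
        field_simp
      rw [h3] at h2
      have h4 := hone (-((Real.exp 1 : ℝ) : ℂ)) (Submodule.neg_mem _ h2)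
      rw [add_neg_cancel] at h4
      exact h4 isAlgebraic_zero

open Classical in
theorem counting (N : ℕ) : ((Finset.Icc 2 N).filter (fun n : ℕ => Exceptional Real.pi n ∨
      Exceptional (Real.exp 1) n)).card ≤ (Nat.log 2 N + 2) ^ 2 := by
  rw [Finset.filter_or]
  refine (Finset.card_union_le _ _).trans ?_
  have h1 := card_one ((Finset.Icc 2 N).filter (fun n : ℕ => Exceptional Real.pi n)) N
    (by
      intro n hn
      exact Finset.mem_Icc.mp (Finset.mem_filter.mp hn).1) (by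
      intro m hm n hn
      rw [Finset.mem_filter, Finset.mem_Icc] at hm hn
      exact pi_dep hm.1.1 hn.1.1 hm.2 hn.2)
  have h2 := card_two ((Finset.Icc 2 N).filter (fun n : ℕ => Exceptional (Real.exp 1) n)) N
    (by
      intro n hn
      exact Finset.mem_Icc.mp (Finset.mem_filter.mp hn).1) (by
      intro l hl m hm n hn
      rw [Finset.mem_filter, Finset.mem_Icc] at hl hm hn
      exact e_dep hl.1.1 hm.1.1 hn.1.1 hl.2 hm.2 hn.2)
  calc _ ≤ (Nat.log 2 N + 1) + (Nat.log 2 N + 1) ^ 2 := Nat.add_le_add h1 h2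
    _ ≤ (Nat.log 2 N + 2) ^ 2 := by nlinarith

open Classical in
/-- **The integers `n` with `n ^ π` or `n ^ e` rational (algebraic): one class for `π`, at most two
classes for `e`, and two classes for `e` make `e`, `e + π`, `e π`, `e ^ e` independent of all
logarithms.** -/
theorem result :
    -- exceptional bases contain all `n` for which `n ^ π` (`n ^ e`) is rational or algebraic
    (∀ (b : ℝ) (n : ℕ), 2 ≤ n → IsAlgebraic ℚ ((n : ℝ) ^ b) → Exceptional b n) ∧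
    -- `π`, all algebraic bases: two multiplicatively independent ones are not both exceptional
    (∀ l m : ℂ, IsAlgebraic ℚ (Complex.exp l) → IsAlgebraic ℚ (Complex.exp m) →
      LinearIndependent ℚ ![l, m] → ∀ β γ : ℂ, IsAlgebraic ℚ β → IsAlgebraic ℚ γ → β ≠ 0 → γ ≠ 0 →
      Transcendental ℚ (Complex.exp (β * Real.pi * l)) ∨
        Transcendental ℚ (Complex.exp (γ * Real.pi * m))) ∧
    -- `π`: the exceptional integers are powers of one integer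
    (∃ c : ℕ, 2 ≤ c ∧ ∀ n : ℕ, 2 ≤ n → Exceptional Real.pi n → ∃ k : ℕ, 1 ≤ k ∧ n = c ^ k) ∧
    -- `e`: three exceptional integers are multiplicatively dependent
    (∀ l m n : ℕ, 2 ≤ l → 2 ≤ m → 2 ≤ n → Exceptional (Real.exp 1) l →
      Exceptional (Real.exp 1) m → Exceptional (Real.exp 1) n →
      ∃ i j k : ℤ, (i ≠ 0 ∨ j ≠ 0 ∨ k ≠ 0) ∧ (l : ℚ) ^ i * (m : ℚ) ^ j * (n : ℚ) ^ k = 1) ∧
    -- `e`: either they are powers of one integer, or `e y + z` is transcendental for all linear forms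
    -- `y, z` in logarithms, `y` not in the span of `log l, log m`
    ((∃ c : ℕ, 2 ≤ c ∧ ∀ n : ℕ, 2 ≤ n → Exceptional (Real.exp 1) n →
        ∃ k : ℕ, 1 ≤ k ∧ n = c ^ k) ∨
      ∃ l m : ℕ, 2 ≤ l ∧ 2 ≤ m ∧ Exceptional (Real.exp 1) l ∧ Exceptional (Real.exp 1) m ∧
        (∀ i j : ℤ, (l : ℚ) ^ i * (m : ℚ) ^ j = 1 → i = 0 ∧ j = 0) ∧
        (∀ y ∈ LogForms, y ∉ Submodule.span (algebraicClosure ℚ ℂ)
            {((Real.log l : ℝ) : ℂ), ((Real.log m : ℝ) : ℂ)} →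
          ∀ z ∈ LogForms, Transcendental ℚ ((Real.exp 1 : ℝ) * y + z)) ∧
        (∀ z ∈ LogForms, Transcendental ℚ ((Real.exp 1 : ℝ) + z)) ∧
        (∀ z ∈ LogForms, Transcendental ℚ ((Real.exp 1 : ℝ) * Real.pi + z)) ∧
        (∀ β : ℂ, IsAlgebraic ℚ β → β ≠ 0 →
          Transcendental ℚ (Complex.exp (β * (Real.exp 1 : ℝ))))) ∧
    -- counting
    (∀ N : ℕ, ((Finset.Icc 2 N).filter (fun n : ℕ => Exceptional Real.pi n ∨
      Exceptional (Real.exp 1) n)).card ≤ (Nat.log 2 N + 2) ^ 2) := by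
  refine ⟨fun b n hn h => exc_of hn h, ?_, ?_, ?_, e_alt, counting⟩
  · intro l m hl hm hi β γ hβ hγ hβ0 hγ0
    by_contra hcon
    rw [not_or, Transcendental, Transcendental, not_not, not_not] at hcon
    exact pi_pair l m hl hm hi β γ hβ hγ hβ0 hγ0 hcon.1 hcon.2
  · obtain ⟨c, hc, h⟩ := powers {n : ℕ | 2 ≤ n ∧ Exceptional Real.pi n}
      (fun n hn => hn.1) (fun m hm n hn => pi_dep hm.1 hn.1 hm.2 hn.2)
    exact ⟨c, hc, fun n hn hE => h n ⟨hn, hE⟩⟩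
  · intro l m n hl hm hn h0 h1 h2
    have h3 := e_dep hl hm hn h0 h1 h2
    unfold Indep at h3
    push Not at h3
    obtain ⟨k, hk, hk0⟩ := h3
    rw [Fin.prod_univ_three] at hk
    refine ⟨k 0, k 1, k 2, ?_, by simpa using hk⟩
    by_contra hcon
    push Not at hcon
    apply hk0
    ext i
    fin_cases i
    · exact hcon.1
    · exact hcon.2.1
    · exact hcon.2.2

end Pool.Agent.Results.MP_ee2255_nt.ExceptionalBases
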