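import Mathlib
import Pool.Agent.H340R2.LW
import Pool.Agent.U945.FD.Cplx

/-!
# Integers with few digits, linear recurrences, and the powers `n ^ π` and `n ^ e`

It is not known whether there is an integer `n ≥ 2` such that `n ^ π` or `n ^ e` is rational.  By the six
exponentials theorem the integers `n` with algebraic `n ^ π`, respectively with algebraic `n ^ e`, are
contained in a multiplicative group of rank at most two, so that there could be infinitely many of them.
We show that only finitely many of them, up to trivial families, have a simple additive description.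

1. Let `b ≥ 2` and `k`.  There are only finitely many positive integers `n`, not divisible by `b`, with
   at most `k` nonzero digits in base `b` such that `n ^ π` or `n ^ e` is algebraic.

2. The same for every exponent `t` which is not a rational number: there is a finite set `F` such that
   all `n` with at most `k` nonzero digits in base `b` and with algebraic `n ^ t` are of the form
   `m b ^ j` with `m` in `F`.

3. Let `u_n = ∑ c_i a_i ^ n` be a linear recurrence of order at least two, with algebraic numbers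
   `c_i, a_i ≠ 0` such that no quotient `a_i / a_j`, `i ≠ j`, is a root of unity.  Then only finitely
   many terms `u_n` are rational numbers, not zero, such that `|u_n| ^ t` is algebraic.  For instance
   `(2 ^ n + 3 ^ n + 5 ^ n) ^ π` is transcendental for all but finitely many `n`.

4. Let `G` be a finitely generated multiplicative group of algebraic numbers and `N` an integer.  There
   is a finite set `R` such that every rational number `x ≠ 0` with algebraic `|x| ^ t`, which is the sum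
   of at most `N` elements of `G`, is the product of an element of `R` and of one of these elements; and
   if there is no vanishing subsum, this is true for all these elements.

All this is shown more generally for the rational numbers `x` such that `|x| ^ t` is the product of an
algebraic number and of `exp v` with `v` in a finite dimensional `ℚ`-space `V`; and, for transcendental
`t`, for the rational numbers `x` such that `t log |x|` is the sum of an element of a finite dimensional
space over the algebraic numbers and of a linear combination with algebraic coefficients of `1` and of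
logarithms of algebraic numbers.
-/

set_option autoImplicit false

namespace Pool.Agent.Results.MP_ee2255_nt.FewDigits

/-- The linear combinations, with algebraic coefficients, of `1` and of logarithms of algebraic
numbers. -/
noncomputable def LogForms : Submodule (algebraicClosure ℚ ℂ) ℂ :=
  Submodule.span (algebraicClosure ℚ ℂ) ({1} ∪ {z : ℂ | IsAlgebraic ℚ (Complex.exp z)})

/-- The rational numbers `x ≠ 0` such that `|x| ^ t` is the product of an algebraic number and of
`exp v` with `v` in `V`.  For `V = 0` this says that `|x| ^ t` is algebraic. -/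
def Powers (t : ℂ) (V : Submodule ℚ ℂ) : Set ℚ :=
  {x | x ≠ 0 ∧ ∃ v ∈ V, IsAlgebraic ℚ (Complex.exp (t * (Real.log |(x : ℝ)| : ℂ) - v))}

/-- The rational numbers `x ≠ 0` such that `t log |x|` is in `LogForms + V`. -/
def StrongPowers (t : ℂ) (V : Submodule (algebraicClosure ℚ ℂ) ℂ) : Set ℚ :=
  {x | x ≠ 0 ∧ t * (Real.log |(x : ℝ)| : ℂ) ∈ LogForms ⊔ V}

/-- The sets of rational numbers to which the theorem applies: `Powers t V` where `t` is not a rational
number and `V` has finite dimension over `ℚ`, and `StrongPowers t V` where `t` is transcendental and `V`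
has finite dimension over the field of algebraic numbers. -/
def Admissible (X : Set ℚ) : Prop :=
  (∃ t : ℂ, (∀ q : ℚ, t ≠ q) ∧ ∃ V : Submodule ℚ ℂ, FiniteDimensional ℚ V ∧ X = Powers t V) ∨
  (∃ t : ℂ, Transcendental ℚ t ∧ ∃ V : Submodule (algebraicClosure ℚ ℂ) ℂ,
    FiniteDimensional (algebraicClosure ℚ ℂ) V ∧ X = StrongPowers t V)

/-- The natural numbers with at most `k` nonzero digits in base `b`. -/
def Few (b k : ℕ) : Set ℕ :=
  {n | ∃ J : Finset ℕ, J.card ≤ k ∧ ∃ d : ℕ → ℕ, (∀ m ∈ J, 0 < d m ∧ d m < b) ∧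
    n = ∑ m ∈ J, d m * b ^ m}

/-- The group generated by nonzero numbers `g 1, …, g r`. -/
def Grp {r : ℕ} (g : Fin r → ℂ) : Set ℂ := {u | ∃ e : Fin r → ℤ, u = ∏ j, g j ^ e j}

open Pool.Agent.U945.RV Pool.Agent.U945.AP Pool.Agent.H301R2.SSE in
/-- the set of the primes of the elements of an admissible set is finite -/
theorem admissible_primes {X : Set ℚ} (hX : Admissible X) : (0 : ℚ) ∉ X ∧
    {q : ℕ | q.Prime ∧ ∃ x ∈ X, padicValRat q x ≠ 0}.Finite := by
  have hlg : ∀ x : ℚ, ((Real.log |(x : ℝ)| : ℝ) : ℂ) = lg |x| := by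
    intro x
    unfold lg
    rw [Rat.cast_abs]
  have hval : ∀ (q : ℕ) (x : ℚ), padicValRat q |x| = padicValRat q x := by
    intro q x
    rcases abs_choice x with h | h
    · rw [h]
    · rw [h, padicValRat.neg]
  have key : ∀ Γ : Set ℚ, BR Γ → (∀ x ∈ X, |x| ∈ Γ) →
      {q : ℕ | q.Prime ∧ ∃ x ∈ X, padicValRat q x ≠ 0}.Finite := by
    intro Γ hΓ h
    refine (primes_finite hΓ).subset ?_
    rintro q ⟨hq, x, hx, hv⟩
    exact ⟨hq, |x|, h x hx, by rwa [hval]⟩
  rcases hX with ⟨t, ht, V, hV, rfl⟩ | ⟨t, ht, V, hV, rfl⟩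
  · refine ⟨fun h => h.1 rfl, key _ (br_irr ht V) ?_⟩
    rintro x ⟨hx0, v, hv, h⟩
    refine ⟨abs_pos.2 hx0, ?_⟩
    rw [hlg] at h
    have := Submodule.add_mem_sup (mem_Lg.2 h) hv
    rwa [sub_add_cancel] at this
  · refine ⟨fun h => h.1 rfl, key _ (br_trans ht V) ?_⟩
    rintro x ⟨hx0, h⟩
    refine ⟨abs_pos.2 hx0, ?_⟩
    rw [hlg] at h
    exact h

/-- the natural numbers `n` with algebraic `n ^ t` -/
theorem mem_powers {t : ℝ} {n : ℕ} (hn : n ≠ 0) (h : IsAlgebraic ℚ ((n : ℝ) ^ t)) :
    (n : ℚ) ∈ Powers (t : ℂ) ⊥ := by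
  have hpos : (0 : ℝ) < n := by exact_mod_cast Nat.pos_of_ne_zero hn
  refine ⟨by exact_mod_cast hn, 0, zero_mem _, ?_⟩
  have e1 : Complex.exp ((t : ℂ) * ((Real.log |((n : ℚ) : ℝ)| : ℝ) : ℂ) - 0) =
      (((n : ℝ) ^ t : ℝ) : ℂ) := by
    rw [sub_zero, Rat.cast_natCast, abs_of_pos hpos, Real.rpow_def_of_pos hpos,
      Complex.ofReal_exp, Complex.ofReal_mul, mul_comm]
  rw [e1]
  exact h.algebraMap

/-- **Integers with few digits and the powers `n ^ π` and `n ^ e`.** -/
theorem result :
    (∀ b k : ℕ, 2 ≤ b → {n : ℕ | n ∈ Few b k ∧ ¬ b ∣ n ∧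
      (IsAlgebraic ℚ ((n : ℝ) ^ Real.pi) ∨ IsAlgebraic ℚ ((n : ℝ) ^ Real.exp 1))}.Finite) ∧
    ∀ X : Set ℚ, Admissible X →
      (∀ b k : ℕ, 2 ≤ b → ∃ F : Finset ℕ, ∀ n ∈ Few b k, (n : ℚ) ∈ X →
        ∃ m ∈ F, ∃ j : ℕ, n = m * b ^ j) ∧
      (∀ k : ℕ, 2 ≤ k → ∀ c a : Fin k → ℂ, (∀ i, IsAlgebraic ℚ (c i) ∧ c i ≠ 0) →
        (∀ i, IsAlgebraic ℚ (a i) ∧ a i ≠ 0) →
        (∀ i j, i ≠ j → ∀ n : ℕ, n ≠ 0 → a i ^ n ≠ a j ^ n) →
        {n : ℤ | ∃ x ∈ X, ∑ i, c i * a i ^ n = (x : ℂ)}.Finite) ∧
      (∀ (r : ℕ) (g : Fin r → ℂ), (∀ j, IsAlgebraic ℚ (g j) ∧ g j ≠ 0) → ∀ N : ℕ,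
        ∃ R : Finset ℂ, ∀ k ≤ N, ∀ f : Fin k → ℂ, (∀ i, f i ∈ Grp g) → ∀ x ∈ X,
          ∑ i, f i = (x : ℂ) → (∃ i, (x : ℂ) / f i ∈ R) ∧
          ((∀ J : Finset (Fin k), J.Nonempty → ∑ i ∈ J, f i ≠ 0) → ∀ i, (x : ℂ) / f i ∈ R)) := by
  have few : ∀ X : Set ℚ, Admissible X → ∀ b k : ℕ, 2 ≤ b → ∃ F : Finset ℕ,
      ∀ n ∈ Few b k, (n : ℚ) ∈ X → ∃ m ∈ F, ∃ j : ℕ, n = m * b ^ j := by
    intro X hX b k hb
    obtain ⟨h0, hS⟩ := admissible_primes hX
    exact Pool.Agent.U945.FD.digits hb k X h0 hS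
  refine ⟨fun b k hb => ?_, fun X hX => ⟨few X hX, fun k hk c a hc ha hne => ?_,
    fun r g hg N => ?_⟩⟩
  · have irr : ∀ t : ℝ, Irrational t → ∀ q : ℚ, (t : ℂ) ≠ q := by
      intro t ht q hq
      apply ht
      refine ⟨q, ?_⟩
      have : ((q : ℝ) : ℂ) = (t : ℂ) := by
        rw [hq, Complex.ofReal_ratCast]
      exact_mod_cast this
    have one : ∀ t : ℝ, Irrational t → {n : ℕ | n ∈ Few b k ∧ ¬ b ∣ n ∧
        IsAlgebraic ℚ ((n : ℝ) ^ t)}.Finite := by
      intro t ht
      obtain ⟨F, hF⟩ := few (Powers (t : ℂ) ⊥) (Or.inl ⟨t, irr t ht, ⊥, inferInstance, rfl⟩) b k hb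
      refine F.finite_toSet.subset ?_
      rintro n ⟨h1, h2, h3⟩
      have hn : n ≠ 0 := fun h => h2 (h ▸ dvd_zero b)
      obtain ⟨m, hm, j, hj⟩ := hF n h1 (mem_powers hn h3)
      have hj0 : j = 0 := by
        by_contra hne
        exact h2 (hj ▸ Dvd.dvd.mul_left (dvd_pow_self b hne) m)
      rw [hj0, pow_zero, mul_one] at hj
      rw [hj]
      exact hm
    have he : Irrational (Real.exp 1) := by
      rintro ⟨q, hq⟩
      apply Pool.Agent.H340R2.LW.transcendental_exp_one
      rw [← hq]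
      exact isAlgebraic_algebraMap q
    refine ((one _ irrational_pi).union (one _ he)).subset ?_
    rintro n ⟨h1, h2, h3 | h3⟩
    · exact Or.inl ⟨h1, h2, h3⟩
    · exact Or.inr ⟨h1, h2, h3⟩
  · obtain ⟨h0, hS⟩ := admissible_primes hX
    exact Pool.Agent.U945.FD.recur hk c a (fun i => (hc i).1) (fun i => (ha i).1)
      (fun i => (hc i).2) (fun i => (ha i).2) hne X h0 hS
  · obtain ⟨h0, hS⟩ := admissible_primes hX
    obtain ⟨R, hR⟩ := Pool.Agent.U945.FD.ccore g (fun j => (hg j).1) (fun j => (hg j).2) X h0 hS N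
    refine ⟨R, fun k hk f hf x hx hsum => ?_⟩
    obtain ⟨h1, -, h3⟩ := hR (Fin k) Finset.univ f (by simpa using hk) (fun i _ => hf i) x hx hsum
    refine ⟨?_, fun hnd i => h3 (fun J _ hJ => hnd J hJ) i (Finset.mem_univ i)⟩
    obtain ⟨i, -, hi⟩ := h1
    exact ⟨i, hi⟩

end Pool.Agent.Results.MP_ee2255_nt.FewDigits
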