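import Pool.Agent.U664.SQ.Box

/-!
# The numbers `n ^ P(π)` and `n ^ P(e)` at every scale

The question is whether `n ^ π` or `n ^ e` can be rational for an integer `n ≥ 2`. Here all numbers
`n ^ P(π)` and `n ^ P(e)` with integer polynomials `P` are compared with all algebraic numbers of
bounded degree, at every scale.

Call a complex number `x` *good at the scale* `N` (for the degree `d` and the exponent `C`) if
`|f(x)| > exp (-N ^ C)` for all nonzero integer polynomials `f` of degree at most `d` with coefficients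
of absolute value at most `N`. For `d = 1` this says `|q x - p| > exp (-N ^ C)` for all integers
`p, q` with `|p|, |q| ≤ N`, not both zero.

Let `n ≥ 2` be an integer, let `t = π` or `t = e`, and let `d, D, H` be given. There are `C` and `N₀` such
that at EVERY scale `N ≥ N₀` the coefficient vectors `k`, `|k_j| ≤ H`, of the polynomials
`P = k_0 + k_1 X + … + k_D X ^ D` for which `n ^ P(t)` is not good at the scale `N` are in a rational space
`U` (which depends on `N`) of dimension at most `(D + 4) / 2`; so there are at most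
`(2 H + 1) ^ ((D + 4) / 2)` such `P` among the `(2 H + 1) ^ (D + 1)` polynomials. In other words, if
`r ≥ (D + 5) / 2` and `P_1, …, P_r` are linearly independent, then at every scale one of the numbers
`n ^ P_1(t), …, n ^ P_r(t)` is good, for a `C` which is independent of the scale.

The same is true for every positive real number `a ≠ 1` in place of `n` (and for the numbers
`exp (ξ P(t))`, for every complex `ξ ≠ 0`), and for every complex number `t` with a transcendence measure
of polynomial type, for instance every transcendental number which is algebraic over `ℚ(π)` or over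
`ℚ(e)`.

Proof: if `P_1, …, P_r` (`2 r ≥ D + 5`) are linearly independent, there are three linearly
independent combinations `R_i` of them such that `S_i = R_i Q / R` are also combinations of them, for fixed
polynomials `R`, `Q` with nonconstant quotient (pencils of matrices); then the quantitative six
exponentials theorem of the library `Pool.Agent.R347.SX` of the starting files is applied to the numbers
`exp (ξ R_i(t))`, `exp (ξ S_i(t))`, approximated by monomials in approximations to the numbers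
`exp (ξ P_j(t))`, in all parameters at the same time.
-/

set_option autoImplicit false

namespace Pool.Agent.Results.MP_ee2255_nt.MeasuresAtEveryScale

open Polynomial

/-- `x` is good at the scale `N`, for the degree `d` and the exponent `C` -/
def GoodAt (d C N : ℕ) (x : ℂ) : Prop :=
  ∀ f : ℤ[X], f ≠ 0 → f.natDegree ≤ d → (∀ n, |f.coeff n| ≤ N) →
    Real.exp (-((N : ℝ) ^ C)) < ‖aeval x f‖

/-- `t` has a transcendence measure of polynomial type, in every degree -/
def Measured (t : ℂ) : Prop :=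
  ∀ D : ℕ, ∃ κ c : ℝ, 0 ≤ κ ∧ 0 < c ∧ ∀ P : ℤ[X], P ≠ 0 → P.natDegree ≤ D →
    ∀ H : ℝ, 1 ≤ H → (∀ j, |(P.coeff j : ℝ)| ≤ H) → c ≤ H ^ κ * ‖aeval t P‖

/-- The statement of the theorem for the numbers `v k`, where `k` runs through the integer vectors with
`D + 1` coordinates of absolute value at most `H`. -/
def EveryScale (d D H : ℕ) (v : (Fin (D + 1) → ℤ) → ℂ) : Prop :=
  ∃ C N₀ : ℕ, ∀ N ≥ N₀,
    (∃ U : Submodule ℚ (Fin (D + 1) → ℚ), 2 * Module.finrank ℚ U ≤ D + 4 ∧
      ∀ k : Fin (D + 1) → ℤ, (∀ j, |k j| ≤ H) → ¬ GoodAt d C N (v k) →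
        (fun j => (k j : ℚ)) ∈ U) ∧
    {k : Fin (D + 1) → ℤ | (∀ j, |k j| ≤ H) ∧ ¬ GoodAt d C N (v k)}.ncard ≤
      (2 * H + 1) ^ ((D + 4) / 2)

theorem result :
    (Measured (Real.pi : ℝ) ∧ Measured (Real.exp 1 : ℝ) ∧
      ∀ t u : ℂ, Measured t → IsAlgebraic (Algebra.adjoin ℤ {t}) u → Transcendental ℤ u →
        Measured u) ∧
    (∀ d D H n : ℕ, 2 ≤ n →
      EveryScale d D H (fun k => (((n : ℝ) ^ (∑ j, (k j : ℝ) * Real.pi ^ (j : ℕ)) : ℝ) : ℂ)) ∧
      EveryScale d D H (fun k => (((n : ℝ) ^ (∑ j, (k j : ℝ) * Real.exp 1 ^ (j : ℕ)) : ℝ) : ℂ))) ∧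
    (∀ (d D H : ℕ) (t a : ℝ), Measured t → 0 < a → a ≠ 1 →
      EveryScale d D H (fun k => ((a ^ (∑ j, (k j : ℝ) * t ^ (j : ℕ)) : ℝ) : ℂ))) ∧
    (∀ (d D H : ℕ) (t ξ : ℂ), Measured t → ξ ≠ 0 →
      EveryScale d D H (fun k => Complex.exp (ξ * ∑ j, (k j : ℂ) * t ^ (j : ℕ)))) := by
  have h1 : ∀ (d D H : ℕ) (t ξ : ℂ), Measured t → ξ ≠ 0 →
      EveryScale d D H (fun k => Complex.exp (ξ * ∑ j, (k j : ℂ) * t ^ (j : ℕ))) := by
    intro d D H t ξ ht hξ
    obtain ⟨C, N₀, h⟩ := Pool.Agent.U664.SQ.box_bad (t := t) ht hξ d D H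
    refine ⟨C, N₀, fun N hN => ?_⟩
    obtain ⟨U, hU1, hU2, hU3⟩ := h N hN C le_rfl
    exact ⟨⟨U, hU1, hU2⟩, hU3⟩
  have h2 : ∀ (d D H : ℕ) (t a : ℝ), Measured t → 0 < a → a ≠ 1 →
      EveryScale d D H (fun k => ((a ^ (∑ j, (k j : ℝ) * t ^ (j : ℕ)) : ℝ) : ℂ)) := by
    intro d D H t a ht ha ha1
    have h3 := h1 d D H t (Real.log a) ht
      (by exact_mod_cast Real.log_ne_zero_of_pos_of_ne_one ha ha1)
    have e : (fun k : Fin (D + 1) → ℤ => ((a ^ (∑ j, (k j : ℝ) * t ^ (j : ℕ)) : ℝ) : ℂ)) =
        fun k : Fin (D + 1) → ℤ =>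
          Complex.exp ((Real.log a : ℂ) * ∑ j, (k j : ℂ) * (t : ℂ) ^ (j : ℕ)) := by
      funext k
      rw [Real.rpow_def_of_pos ha]
      push_cast
      rfl
    rw [e]
    exact h3
  have hpi : Measured (Real.pi : ℝ) := Pool.Agent.TH456.TM.measT_pi
  have he : Measured (Real.exp 1 : ℝ) := Pool.Agent.TH456.TM.measT_e
  refine ⟨⟨hpi, he, fun t u ht hu htr => Pool.Agent.TH456.TM.measT_of_isAlgebraic ht u hu htr⟩,
    fun d D H n hn => ⟨?_, ?_⟩, h2, h1⟩
  · exact h2 d D H Real.pi n hpi (by positivity) (by exact_mod_cast (by omega : n ≠ 1))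
  · exact h2 d D H (Real.exp 1) n he (by positivity) (by exact_mod_cast (by omega : n ≠ 1))

end Pool.Agent.Results.MP_ee2255_nt.MeasuresAtEveryScale
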